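import Pool.Agent.H95.NV.Targets2

/-!
# The local numbers count the prime divisors (row NUP of nva_modules, MP_347b49_nt)
-/

set_option autoImplicit false

open NumberField
open scoped nonZeroDivisors

namespace Pool.Agent.H4.NV

open Pool.Agent.H95.NV
open Pool.Agent.H65.CM4 (V2)
open Pool.Agent.H95.CM (Nr mem_Nr)
open Pool.Agent.H61.NVK (Lb)
open Pool.Agent.H89.NV (PrI q4 Rs rts nuP)

section Rep

variable {k : Type} [Field k] [NumberField k]

theorem q4_spec {x : 𝓞 k} (h : ∃ c : 𝓞 k, 4 * c = x) : 4 * q4 x = x := by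
  unfold q4
  rw [dif_pos h]
  exact h.choose_spec

theorem mem_Rs {I : Ideal (𝓞 k)} (hI : I ≠ ⊥) (x : 𝓞 k) :
    x ∈ Rs I ↔ ∃ q : 𝓞 k ⧸ I,
      Function.surjInv (Ideal.Quotient.mk_surjective (I := I)) q = x := by
  have h1 : Finite (𝓞 k ⧸ I) := Ideal.finiteQuotientOfFreeOfNeBot I hI
  have h2 : (Set.range (Function.surjInv (Ideal.Quotient.mk_surjective (I := I)))).Finite :=
    Set.finite_range _
  unfold Rs
  rw [dif_pos h2, Set.Finite.mem_toFinset, Set.mem_range]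

theorem Rs_inj {I : Ideal (𝓞 k)} (hI : I ≠ ⊥) {x y : 𝓞 k} (hx : x ∈ Rs I) (hy : y ∈ Rs I)
    (h : x - y ∈ I) : x = y := by
  rw [mem_Rs hI] at hx hy
  obtain ⟨p, rfl⟩ := hx
  obtain ⟨q, rfl⟩ := hy
  have h1 := Ideal.Quotient.eq.2 h
  rw [Function.surjInv_eq (Ideal.Quotient.mk_surjective (I := I)),
    Function.surjInv_eq (Ideal.Quotient.mk_surjective (I := I))] at h1
  rw [h1]

theorem Rs_ex {I : Ideal (𝓞 k)} (hI : I ≠ ⊥) (x : 𝓞 k) : ∃ y ∈ Rs I, x - y ∈ I := by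
  refine ⟨Function.surjInv (Ideal.Quotient.mk_surjective (I := I)) (Ideal.Quotient.mk I x),
    (mem_Rs hI _).2 ⟨_, rfl⟩, ?_⟩
  rw [← Ideal.Quotient.eq, Function.surjInv_eq (Ideal.Quotient.mk_surjective (I := I))]

end Rep

open Classical in
theorem mem_bindcoe {k K : Type} [Field k] [NumberField k] [Field K] [NumberField K]
    (s : Finset (Ideal (𝓞 K))⁰) (x : Ideal (𝓞 K)) :
    (x ∈ (do let a ← s; pure (a : Ideal (𝓞 K)) : Finset (Ideal (𝓞 K)))) ↔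
      ∃ a ∈ s, (a : Ideal (𝓞 K)) = x := by
  change (x ∈ Finset.sup s (fun a => ({(a : Ideal (𝓞 K))} : Finset (Ideal (𝓞 K))))) ↔ _
  rw [Finset.mem_sup]
  constructor
  · rintro ⟨a, ha, h⟩
    exact ⟨a, ha, (Finset.mem_singleton.1 h).symm⟩
  · rintro ⟨a, ha, h⟩
    exact ⟨a, ha, Finset.mem_singleton.2 h.symm⟩

open Classical in
theorem dvn_eq {k K : Type} [Field k] [NumberField k] [Field K] [NumberField K]
    [Algebra k K] (m : Ideal (𝓞 k)) (J : Ideal (𝓞 K)) :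
    dvn k m J = ((Nr k K m).filter (fun Q : (Ideal (𝓞 K))⁰ => (Q : Ideal (𝓞 K)) ∣ J)).card := by
  unfold dvn
  symm
  refine Finset.card_bij (fun (Q : (Ideal (𝓞 K))⁰) _ => (Q : Ideal (𝓞 K))) ?_ ?_ ?_
  · intro Q hQ
    rw [Finset.mem_filter] at hQ ⊢
    exact ⟨(mem_bindcoe (k := k) _ _).2 ⟨Q, hQ.1, rfl⟩, hQ.2⟩
  · intro Q _ Q' _ h
    exact Subtype.ext h
  · intro Q hQ
    rw [Finset.mem_filter] at hQ
    obtain ⟨Q', hQ', h⟩ := (mem_bindcoe (k := k) _ _).1 hQ.1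
    exact ⟨Q', by rw [Finset.mem_filter, h]; exact ⟨hQ', hQ.2⟩, h⟩

section Field

variable {k K : Type} [Field k] [NumberField k] [IsTotallyReal k] [Field K] [NumberField K]
  [Algebra k K] [Algebra.IsQuadraticExtension k K]

omit [IsTotallyReal k] [Algebra.IsQuadraticExtension k K] in
theorem w_add (b j : 𝓞 k) (δ : K) : w (b + 2 * j) δ = w b δ + algebraMap k K (j : k) := by
  have h2 : (2 : 𝓞 k) * j = j + j := by ring
  unfold w
  rw [h2, cadd, cadd]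
  have h3 : (2 : K) ≠ 0 := two_ne_zero
  field_simp
  ring

theorem mem_ext (hIDC : T_IDC) (hCOO : T_COO) {f : Ideal (𝓞 k)} {D b₀ : 𝓞 k} {δ : K}
    (hKD : KD f D b₀ δ) {A : Ideal (𝓞 k)} {b : 𝓞 k} (hAdm : Adm f D A b) (e : Ideal (𝓞 k))
    (z : 𝓞 K) (x y : 𝓞 k)
    (hz : (z : K) = algebraMap k K (x : k) + algebraMap k K (y : k) * w b δ) :
    z ∈ e.map (algebraMap (𝓞 k) (𝓞 K)) * (f.map (algebraMap (𝓞 k) (𝓞 K)) * Id f A b δ) ↔
      x ∈ e * (A * f) ∧ y ∈ e := by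
  obtain ⟨-, -, hLt, -, -⟩ := hIDC k K f D b₀ δ hKD A b hAdm
  obtain ⟨-, hun, -, -⟩ := hCOO k K D b δ hKD.pos hKD.sq
  generalize hM : f.map (algebraMap (𝓞 k) (𝓞 K)) * Id f A b δ = M at hLt ⊢
  constructor
  · intro hzm
    have h1 : z ∈ (e • (Submodule.restrictScalars (𝓞 k) M)) := by
      rw [← Ideal.smul_restrictScalars]
      exact hzm
    have h2 : ∃ x' ∈ e * (A * f), ∃ y' ∈ e,
        (z : K) = algebraMap k K ((x' : 𝓞 k) : k) + algebraMap k K ((y' : 𝓞 k) : k) * w b δ := by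
      refine Submodule.smul_induction_on (p := fun z : 𝓞 K => ∃ x' ∈ e * (A * f), ∃ y' ∈ e,
        (z : K) = algebraMap k K ((x' : 𝓞 k) : k) + algebraMap k K ((y' : 𝓞 k) : k) * w b δ)
        h1 ?_ ?_
      · intro r hr m hm
        obtain ⟨x', hx', y', h3⟩ := (hLt (m : K)).2 ⟨m, hm, rfl⟩
        refine ⟨r * x', Ideal.mul_mem_mul hr hx', r * y', Ideal.mul_mem_right _ _ hr, ?_⟩
        have h4 : ((r • m : 𝓞 K) : K) = algebraMap k K (r : k) * (m : K) := by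
          rw [Algebra.smul_def]
          rfl
        rw [h4, h3, cmul, cmul]
        ring
      · rintro p q ⟨x1, hx1, y1, hy1, h3⟩ ⟨x2, hx2, y2, hy2, h4⟩
        refine ⟨x1 + x2, Ideal.add_mem _ hx1 hx2, y1 + y2, Ideal.add_mem _ hy1 hy2, ?_⟩
        have h5 : ((p + q : 𝓞 K) : K) = (p : K) + (q : K) := rfl
        rw [h5, h3, h4, cadd, cadd]
        ring
    obtain ⟨x', hx', y', hy', h3⟩ := h2
    have h4 : algebraMap k K ((x : k) - (x' : k)) + algebraMap k K ((y : k) - (y' : k)) *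
        w b δ = 0 := by
      rw [map_sub, map_sub]
      have h5 := hz.symm.trans h3
      linear_combination h5
    obtain ⟨h5, h6⟩ := hun _ _ h4
    have h7 : x = x' := by
      have := sub_eq_zero.1 h5
      exact_mod_cast this
    have h8 : y = y' := by
      have := sub_eq_zero.1 h6
      exact_mod_cast this
    rw [h7, h8]
    exact ⟨hx', hy'⟩
  · rintro ⟨hx, hy⟩
    obtain ⟨t, ht, ht2⟩ := (hLt (w b δ)).1 ⟨0, Ideal.zero_mem _, 1, by simp⟩
    have h1 : (A * f).map (algebraMap (𝓞 k) (𝓞 K)) ≤ M := by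
      rw [Ideal.map_le_iff_le_comap]
      intro s hs
      obtain ⟨t', ht', ht2'⟩ := (hLt (algebraMap k K (s : k))).1 ⟨s, hs, 0, by simp⟩
      have h2 : algebraMap (𝓞 k) (𝓞 K) s = t' := by
        apply RingOfIntegers.ext
        exact ht2'.symm
      rw [Ideal.mem_comap, h2]
      exact ht'
    have h2 : z = algebraMap (𝓞 k) (𝓞 K) x + algebraMap (𝓞 k) (𝓞 K) y * t := by
      apply RingOfIntegers.ext
      have h3 : (((algebraMap (𝓞 k) (𝓞 K) x + algebraMap (𝓞 k) (𝓞 K) y * t : 𝓞 K)) : K) =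
          algebraMap k K (x : k) + algebraMap k K (y : k) * (t : K) := rfl
      rw [h3, ht2]
      exact hz
    rw [h2]
    refine Ideal.add_mem _ ?_ (Ideal.mul_mem_mul (Ideal.mem_map_of_mem _ hy) ht)
    have h3 := Ideal.mem_map_of_mem (algebraMap (𝓞 k) (𝓞 K)) hx
    rw [Ideal.map_mul] at h3
    exact Ideal.mul_mono_right h1 h3

end Field

theorem pf_NUP (hHEC : T_HEC) (hIDC : T_IDC) (_hIDN : T_IDN) (hCOO : T_COO) (_hBRA : T_BRA) :
    T_NUP := by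
  classical
  intro k K _ _ _ _ _ _ _ f D b₀ δ hKD A b hAdm P a u x J ha hu _hu0 hx hJ
  obtain ⟨hPp, hP0⟩ := P.2
  obtain ⟨hA0, hbf, c, hc, hc4⟩ := id hAdm
  have hf0 : f ≠ ⊥ := hKD.f_ne
  have h40 : (4 : 𝓞 k) ≠ 0 := by
    have h20 : (2 : 𝓞 k) ≠ 0 := two_ne_zero
    have h22 : (4 : 𝓞 k) = 2 * 2 := by norm_num
    rw [h22]
    exact mul_ne_zero h20 h20
  have hq : q4 (b ^ 2 + D) = c := by
    have h1 := q4_spec ⟨c, hc4⟩
    rw [← hc4] at h1 ⊢
    exact mul_left_cancel₀ h40 h1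
  rw [hq]
  have hPA0 : P.1 * A ≠ ⊥ := mul_ne_zero hP0 hA0
  have hPAf : P.1 * (A * f) ≠ ⊥ := mul_ne_zero hP0 (mul_ne_zero hA0 hf0)
  have hle : P.1 * (A * f) ≤ A * f := Ideal.mul_le_right
  have hlef : A * f ≤ f := Ideal.mul_le_right
  -- the roots
  have hkey : ∀ j ∈ A * f, (Adm f D (P.1 * A) (b + 2 * j) ↔
      j ^ 2 + b * j + c ∈ P.1 * (A * f ^ 2)) := by
    intro j hj
    have h1 : 4 * (j ^ 2 + b * j + c) = (b + 2 * j) ^ 2 + D := by
      linear_combination hc4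
    constructor
    · rintro ⟨-, -, c', hc', h2⟩
      have h3 : j ^ 2 + b * j + c = c' := mul_left_cancel₀ h40 (h1.trans h2.symm)
      rw [h3, ← mul_assoc]
      exact hc'
    · intro h2
      exact ⟨hPA0, Ideal.add_mem _ hbf (Ideal.mul_mem_left _ _ (hlef hj)), _,
        by rw [mul_assoc]; exact h2, h1⟩
  have hmem : ∀ j, j ∈ rts f P.1 A b c ↔ j ∈ Rs (P.1 * (A * f)) ∧ j ∈ A * f ∧
      j ^ 2 + b * j + c ∈ P.1 * (A * f ^ 2) := by
    intro j
    unfold rts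
    rw [Finset.mem_filter]
  have hS1 : ∀ j ∈ rts f P.1 A b c, j ∈ A * f ∧ Adm f D (P.1 * A) (b + 2 * j) := by
    intro j hj
    rw [hmem] at hj
    exact ⟨hj.2.1, (hkey j hj.2.1).2 hj.2.2⟩
  have hS2 : ∀ j ∈ rts f P.1 A b c, ∀ j' ∈ rts f P.1 A b c, j - j' ∈ P.1 * A * f → j = j' := by
    intro j hj j' hj' h
    rw [hmem] at hj hj'
    rw [mul_assoc] at h
    exact Rs_inj hPAf hj.1 hj'.1 h
  have hS3 : ∀ j ∈ A * f, Adm f D (P.1 * A) (b + 2 * j) →
      ∃ j' ∈ rts f P.1 A b c, j - j' ∈ P.1 * A * f := by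
    intro j hj h
    rw [hkey j hj] at h
    obtain ⟨j', hj', h1⟩ := Rs_ex hPAf j
    refine ⟨j', ?_, by rw [mul_assoc]; exact h1⟩
    rw [hmem]
    have h2 : j' ∈ A * f := by
      have h3 := Ideal.sub_mem _ hj (hle h1)
      have h4 : j - (j - j') = j' := by ring
      rwa [h4] at h3
    refine ⟨hj', h2, ?_⟩
    have h3 : j' ^ 2 + b * j' + c = (j ^ 2 + b * j + c) - (j - j') * (j + j' + b) := by ring
    rw [h3]
    refine Ideal.sub_mem _ h ?_
    have h4 : P.1 * (A * f ^ 2) = P.1 * (A * f) * f := by ring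
    rw [h4]
    exact Ideal.mul_mem_mul h1 (Ideal.add_mem _ (Ideal.add_mem _ (hlef hj) (hlef h2)) hbf)
  -- the divisors
  have hI0 : Id f A b δ ≠ ⊥ := (hIDC k K f D b₀ δ hKD A b hAdm).2.2.2.2
  have hF0 : (a * f).map (algebraMap (𝓞 k) (𝓞 K)) ≠ ⊥ := by
    rw [Ne, Ideal.map_eq_bot_iff_of_injective (FaithfulSMul.algebraMap_injective (𝓞 k) (𝓞 K))]
    exact mul_ne_zero ha hf0
  have hdv : ∀ Q : Ideal (𝓞 K), Q ∣ J ↔
      x ∈ (a * f).map (algebraMap (𝓞 k) (𝓞 K)) * (Q * Id f A b δ) := by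
    intro Q
    rw [← Ideal.dvd_span_singleton, hJ]
    have h1 : (a * f).map (algebraMap (𝓞 k) (𝓞 K)) * (Q * Id f A b δ) =
        Q * ((a * f).map (algebraMap (𝓞 k) (𝓞 K)) * Id f A b δ) := by ring
    rw [h1]
    exact (mul_dvd_mul_iff_right (mul_ne_zero hF0 hI0)).symm
  obtain ⟨hu1, hu2⟩ : u.1 ∈ a * (A * f) ∧ u.2 ∈ a := hu
  -- the indicator
  let Φ : Ideal (𝓞 K) → ℂ := fun M =>
    if x ∈ (a * f).map (algebraMap (𝓞 k) (𝓞 K)) * M then 1 else 0
  have hsum : ∑ Q ∈ Nr k K P.1, Φ ((Q : Ideal (𝓞 K)) * Id f A b δ) = (dvn k P.1 J : ℂ) := by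
    rw [dvn_eq, Finset.card_filter, Nat.cast_sum]
    refine Finset.sum_congr rfl fun Q _ => ?_
    simp only [Φ]
    by_cases h : (Q : Ideal (𝓞 K)) ∣ J
    · rw [if_pos h, if_pos ((hdv _).1 h)]
      simp
    · rw [if_neg h, if_neg (fun h' => h ((hdv _).2 h'))]
      simp
  have hterm : ∀ j ∈ rts f P.1 A b c, Φ (Id f (P.1 * A) (b + 2 * j) δ) =
      if u.1 - j * u.2 ∈ P.1 * (a * (A * f)) then 1 else 0 := by
    intro j hj
    simp only [Φ]
    have h1 : (x : K) = algebraMap k K (((u.1 - j * u.2 : 𝓞 k)) : k) +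
        algebraMap k K (u.2 : k) * w (b + 2 * j) δ := by
      rw [w_add, hx]
      have h2 : algebraMap k K (((u.1 - j * u.2 : 𝓞 k)) : k) =
          algebraMap k K (u.1 : k) - algebraMap k K (j : k) * algebraMap k K (u.2 : k) := by
        rw [← map_mul, ← map_sub]
        rfl
      rw [h2]
      ring
    have h2 : (a * f).map (algebraMap (𝓞 k) (𝓞 K)) * Id f (P.1 * A) (b + 2 * j) δ =
        a.map (algebraMap (𝓞 k) (𝓞 K)) *
          (f.map (algebraMap (𝓞 k) (𝓞 K)) * Id f (P.1 * A) (b + 2 * j) δ) := by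
      rw [Ideal.map_mul, mul_assoc]
    have h3 : a * (P.1 * A * f) = P.1 * (a * (A * f)) := by ring
    have h4 := mem_ext hIDC hCOO hKD (hS1 j hj).2 a x _ _ h1
    rw [h3] at h4
    rw [h2]
    by_cases h : u.1 - j * u.2 ∈ P.1 * (a * (A * f))
    · rw [if_pos h, if_pos (h4.2 ⟨h, hu2⟩)]
    · rw [if_neg h, if_neg (fun h' => h (h4.1 h').1)]
  have hsumS : ∑ j ∈ rts f P.1 A b c, Φ (Id f (P.1 * A) (b + 2 * j) δ) =
      ((((rts f P.1 A b c).filter
        (fun j => u.1 - j * u.2 ∈ P.1 * (a * (A * f)))).card : ℕ) : ℂ) := by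
    rw [Finset.card_filter, Nat.cast_sum, Finset.sum_congr rfl hterm]
    refine Finset.sum_congr rfl fun j _ => ?_
    split_ifs <;> simp
  obtain ⟨-, hH⟩ := hHEC k K f D b₀ δ hKD A P.1 b hAdm hPp hP0 (rts f P.1 A b c) hS1 hS2 hS3
  obtain ⟨hH1, hH2⟩ := hH Φ
  have hfin : ((nuP f P.1 a A b c u : ℕ) : ℂ) = (dvn k P.1 J : ℂ) := by
    rw [← hsum]
    unfold nuP
    rw [Nat.cast_add, ← hsumS]
    by_cases hPA : P.1 ∣ A
    · obtain ⟨A', hA'⟩ := id hPA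
      obtain ⟨hAdm', hs⟩ := hH1 A' hA'
      rw [hs]
      congr 1
      simp only [Φ]
      have h2 : (a * f).map (algebraMap (𝓞 k) (𝓞 K)) *
          (P.1.map (algebraMap (𝓞 k) (𝓞 K)) * Id f A' b δ) =
          (P.1 * a).map (algebraMap (𝓞 k) (𝓞 K)) *
          (f.map (algebraMap (𝓞 k) (𝓞 K)) * Id f A' b δ) := by
        rw [Ideal.map_mul, Ideal.map_mul]
        ring
      have h4 := mem_ext hIDC hCOO hKD hAdm' (P.1 * a) x _ _ hx
      have h5 : P.1 * a * (A' * f) = a * (A * f) := by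
        rw [hA']
        ring
      rw [h5] at h4
      rw [h2]
      by_cases h : u.2 ∈ P.1 * a
      · rw [if_pos ⟨hPA, h⟩, if_pos (h4.2 ⟨hu1, h⟩)]
        simp
      · rw [if_neg (fun h' => h h'.2), if_neg (fun h' => h (h4.1 h').2)]
        simp
    · rw [hH2 hPA, if_neg (fun h' => hPA h'.1)]
      simp
  exact_mod_cast hfin

end Pool.Agent.H4.NV
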