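import Pool.Agent.H95.NV.Lib
import Pool.Agent.H19.CN.OPT

/-!
# The proportion with smooth weights, one class of `k` (row SMF of nva_modules, MP_347b49_nt)
-/

set_option autoImplicit false

open MeasureTheory Set Filter NumberField
open scoped Real nonZeroDivisors

namespace Pool.Agent.H4.NV

open Pool.Agent.H95.NV
open Pool.Agent.H65.CM4 (Pl rv nm dk dg V2 Fo)
open Pool.Agent.H31.CN (Mt)
open Pool.Agent.H61.NVK (sD)
open Pool.Agent.H89.NV (PrI np Dis Fnd good bD em tp sd PM dR kf GW Z1 S2 T_SM2 T_FM1 T_NFD T_CRR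
  ni)

theorem num_choice {c ε α mt : ℝ} (hε : 0 < ε) (hc : ε < c) (hc1 : c ≤ 1) (hα : 0 < α)
    (hmt : 0 < mt) (h : (c - ε / 4) * mt ≤ α ^ 2) :
    ∃ ρ : ℝ, 0 < ρ ∧ 2 * ρ ≤ α ∧ (c - ε) * ((1 + ε / 2) * mt + ρ) ≤ (α - 2 * ρ) ^ 2 := by
  refine ⟨(ε / 8) * mt / (1 + 4 * α), by positivity, ?_, ?_⟩
  · rw [mul_div_assoc', div_le_iff₀ (by positivity)]
    nlinarith [mul_pos hε hmt, mul_pos hα hα, mul_pos (sub_pos.2 hc) hmt]
  · set ρ := (ε / 8) * mt / (1 + 4 * α) with hρ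
    have h1 : ρ * (1 + 4 * α) = (ε / 8) * mt := by
      rw [hρ]
      field_simp
    have h0 : 0 < ρ := by positivity
    have h2 : (c - ε) * (1 + ε / 2) ≤ c - ε / 2 := by nlinarith
    have h3 : (c - ε) * (1 + ε / 2) * mt ≤ (c - ε / 2) * mt :=
      mul_le_mul_of_nonneg_right h2 hmt.le
    have h4 : (c - ε) * ρ ≤ ρ := by nlinarith
    nlinarith [mul_pos hε hmt, sq_nonneg ρ]

theorem pf_SMF (hCSQ : T_CSQ) (hDRL : T_DRL) : T_SMF := by
  classical
  intro k _ _ _ hSM2 hFM1 hNFD hCRR hZ f G η ε hf hG hG0 hI hε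
  obtain ⟨d0, hd0, hdR⟩ := hDRL k
  have hnmf : 0 < nm f := nmp hf
  have hdk := dkp (k := k)
  have hkf : 0 < kf f := by
    unfold Pool.Agent.H89.NV.kf
    have : 0 < Real.sqrt (dk k) := Real.sqrt_pos.2 hdk
    positivity
  set I := ∫ u, G u with hIdef
  by_cases hbig : 19 / 27 ≤ ε
  · refine ⟨0, fun R _ => ⟨1, fun T hT pf hpf => ?_⟩⟩
    have hT0 : 0 < T := lt_of_lt_of_le one_pos hT
    have hd : 0 < dR (PM k R) := lt_of_lt_of_le hd0 (hdR _)
    have h1 : (19 / 27 - ε) * (T ^ dg k * kf f * dR (PM k R) * I) ≤ 0 :=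
      mul_nonpos_of_nonpos_of_nonneg (by linarith) (by positivity)
    have h2 : 0 ≤ ∑' D : 𝓞 k, if Fnd f D then G (fun v => em D v / T) * pf D else 0 := by
      refine tsum_nonneg fun D => ?_
      split_ifs
      · exact mul_nonneg (hG0 _) (hpf.1 D).1
      · exact le_refl _
    linarith
  push Not at hbig
  obtain ⟨P, θ, hX5, hθ0, hθ1, hmt, hopt⟩ := Pool.Agent.H19.CN.pf_OPT (ε / 4) (by positivity)
  set mt := Mt P (1 / (2 * θ)) with hmtdef
  set a0 := P.eval 1 + 1 / (2 * θ) * P.derivative.eval 1 with ha0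
  have hα2 : (19 / 27 - ε / 4) * mt ≤ |a0| ^ 2 := by
    rw [sq_abs]
    exact hopt
  have hα : 0 < |a0| := by
    rw [abs_pos]
    intro h
    rw [h] at hα2
    have h1 : 0 < (19 / 27 - ε / 4) * mt := mul_pos (by linarith) hmt
    simp at hα2
    linarith
  obtain ⟨σ, hσ2, hσ⟩ : ∃ σ : ℝ, σ ^ 2 = 1 ∧ σ * a0 = |a0| := by
    rcases abs_cases a0 with h | h
    · exact ⟨1, by norm_num, by rw [h.1]; ring⟩
    · exact ⟨-1, by norm_num, by rw [h.1]; ring⟩
  have hσ1 : |σ| = 1 := by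
    have h1 : |σ| ^ 2 = 1 := by rw [sq_abs]; exact hσ2
    have h2 : 0 ≤ |σ| := abs_nonneg σ
    nlinarith
  obtain ⟨ρ, hρ, hρα, hρ3⟩ := num_choice hε hbig (by norm_num) hα hmt hα2
  set α := |a0| with hαdef
  set V0 := kf f * d0 * I with hV0
  have hV0p : 0 < V0 := by positivity
  obtain ⟨R1, hR1⟩ := hCRR (ε / 2) (by positivity)
  obtain ⟨R2, hR2⟩ := hNFD f G η (ρ ^ 2 * V0 / ((1 + ε / 2) * mt + ρ)) hf hG (by positivity)
  refine ⟨max R1 R2, fun R hR => ?_⟩
  obtain ⟨hRA, hcrr⟩ := hR1 R (le_trans (le_max_left _ _) hR)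
  have hnfd := hR2 R (le_trans (le_max_right _ _) hR)
  obtain ⟨T1, hT1⟩ := hFM1 f (PM k R) G η hf hRA hG P θ (ρ * V0) hX5 hθ0 hθ1 (by positivity)
  obtain ⟨T2, hT2⟩ := hSM2 f (PM k R) G η hf hRA hG P θ (ρ * V0) hX5 hθ0 hθ1 (by positivity)
  have hη : 0 < η := hG.pos
  refine ⟨max (max T1 T2) (max 1 ((1 + (2 ^ dg k * nm f) ^ 2) / η)), fun T hT pf hpf => ?_⟩
  have hTT1 : T1 ≤ T := le_trans (le_trans (le_max_left _ _) (le_max_left _ _)) hT
  have hTT2 : T2 ≤ T := le_trans (le_trans (le_max_right _ _) (le_max_left _ _)) hT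
  have hTT3 : 1 ≤ T := le_trans (le_trans (le_max_left _ _) (le_max_right _ _)) hT
  have hTT4 : (1 + (2 ^ dg k * nm f) ^ 2) / η ≤ T :=
    le_trans (le_trans (le_max_right _ _) (le_max_right _ _)) hT
  have hT0 : 0 < T := lt_of_lt_of_le one_pos hTT3
  have h1 := hT1 T hTT1
  have h2 := hT2 T hTT2
  have h3 := hnfd T hTT3
  set R' := PM k R with hR'
  have hd : d0 ≤ dR R' := hdR _
  have hdp : 0 < dR R' := lt_of_lt_of_le hd0 hd
  set V := kf f * dR R' * I with hV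
  have hVp : 0 < V := by positivity
  have hVV : V0 ≤ V := by
    rw [hV0, hV]
    exact mul_le_mul_of_nonneg_right (mul_le_mul_of_nonneg_left hd hkf.le) hI.le
  set n := dg k with hn
  have hn1 : 1 ≤ n := dgp (k := k)
  have hTn : 0 < T ^ n := by positivity
  -- the finite sets
  set s : Finset (𝓞 k) := (gw_fin hG hT0).toFinset.filter (fun D => good f R' D) with hs
  set t : Finset (𝓞 k) := s.filter (fun D => Fnd f D) with ht
  have hms : ∀ D, D ∈ s ↔ G (fun v => em D v / T) ≠ 0 ∧ good f R' D := by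
    intro D
    rw [hs, Finset.mem_filter, Set.Finite.mem_toFinset]
    rfl
  have hmt' : ∀ D, D ∈ t ↔ D ∈ s ∧ Fnd f D := fun D => Finset.mem_filter
  have hFg : ∀ D, Fnd f D → good f R' D := fun D h => ⟨h.1, fun P _ => h.2 P⟩
  have hsum : ∀ F : 𝓞 k → ℝ, (∑' D : 𝓞 k, if good f R' D then
      G (fun v => em D v / T) * F D else 0) = ∑ D ∈ s, G (fun v => em D v / T) * F D := by
    intro F
    rw [tsum_eq_sum (s := s)]
    · refine Finset.sum_congr rfl fun D hD => ?_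
      rw [if_pos ((hms D).1 hD).2]
    · intro D hD
      rw [hms] at hD
      by_cases hg : good f R' D
      · rw [if_pos hg]
        have h5 : G (fun v => em D v / T) = 0 := by
          by_contra h5
          exact hD ⟨h5, hg⟩
        rw [h5, zero_mul]
      · rw [if_neg hg]
  have hsum2 : (∑' D : 𝓞 k, if Fnd f D then G (fun v => em D v / T) * pf D else 0) =
      ∑ D ∈ t, G (fun v => em D v / T) * pf D := by
    rw [tsum_eq_sum (s := t)]
    · refine Finset.sum_congr rfl fun D hD => ?_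
      rw [if_pos (Finset.mem_filter.1 hD).2]
    · intro D hD
      rw [hmt', hms] at hD
      by_cases hg : Fnd f D
      · rw [if_pos hg]
        have h5 : G (fun v => em D v / T) = 0 := by
          by_contra h5
          exact hD ⟨⟨h5, hFg D hg⟩, hg⟩
        rw [h5, zero_mul]
      · rw [if_neg hg]
  have hsum3 : (∑' D : 𝓞 k, if good f R' D ∧ ¬ Fnd f D then |G (fun v => em D v / T)| else 0) =
      ∑ D ∈ s \ t, G (fun v => em D v / T) := by
    rw [tsum_eq_sum (s := s \ t)]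
    · refine Finset.sum_congr rfl fun D hD => ?_
      rw [Finset.mem_sdiff, hmt'] at hD
      rw [if_pos ⟨((hms D).1 hD.1).2, fun h => hD.2 ⟨hD.1, h⟩⟩, abs_of_nonneg (hG0 _)]
    · intro D hD
      rw [Finset.mem_sdiff, hmt', hms] at hD
      by_cases hg : good f R' D ∧ ¬ Fnd f D
      · rw [if_pos hg]
        have h5 : G (fun v => em D v / T) = 0 := by
          by_contra h5
          exact hD ⟨⟨h5, hg.1⟩, fun h => hg.2 h.2⟩
        rw [h5, abs_zero]
      · rw [if_neg hg]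
  -- the conditions
  have hstp : ∀ D ∈ s, tp D := fun D hD => gw_tp hG hT0 ((hms D).1 hD).1
  have hssd : ∀ D ∈ s, 2 ^ dg k < sd f (em D) := by
    intro D hD
    have h5 : ∀ v : Pl k, η * T ≤ em D v := by
      intro v
      by_contra h6
      refine ((hms D).1 hD).1 (hG.supp _ ⟨v, fun h7 => h6 ?_⟩)
      have h8 := h7.1
      rwa [le_div_iff₀ hT0] at h8
    have h6 : (η * T) ^ n ≤ ∏ v : Pl k, em D v := by
      have h7 : ∏ v : Pl k, (η * T) ≤ ∏ v : Pl k, em D v :=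
        Finset.prod_le_prod (fun v _ => by positivity) (fun v _ => h5 v)
      rwa [Finset.prod_const, Finset.card_univ, cardPl] at h7
    have h7 : 1 + (2 ^ n * nm f) ^ 2 ≤ η * T := by
      rw [div_le_iff₀ hη] at hTT4
      linarith
    have h8 : η * T ≤ (η * T) ^ n := by
      refine le_self_pow₀ ?_ (by omega)
      have : 0 ≤ (2 ^ n * nm f) ^ 2 := sq_nonneg _
      linarith
    unfold Pool.Agent.H89.NV.sd Pool.Agent.H61.NVK.sD
    rw [lt_div_iff₀ hnmf]
    refine Real.lt_sqrt_of_sq_lt ?_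
    linarith
  have hbD : ∀ D ∈ s, bD f D ∈ f ∧ bD f D ^ 2 + D ∈ ni k 4 * f ^ 2 := by
    intro D hD
    have h5 : Dis f D := ((hms D).1 hD).2.1
    unfold Pool.Agent.H89.NV.bD
    rw [dif_pos h5]
    exact h5.choose_spec
  -- Cauchy
  have hM : ∀ D ∈ s, (σ * Z1 P (T ^ (n * θ)) f R' (bD f D) D) ^ 2 ≤
      S2 P (T ^ (n * θ)) f R' (bD f D) D := by
    intro D hD
    rw [mul_pow, hσ2, one_mul]
    exact hZ f D (bD f D) hf (hstp D hD) (hbD D hD).1 (hbD D hD).2 (hssd D hD) P _ R'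
  have hMt : ∀ D ∈ t, 0 ≤ pf D ∧ (σ * Z1 P (T ^ (n * θ)) f R' (bD f D) D) ^ 2 ≤
      pf D * S2 P (T ^ (n * θ)) f R' (bD f D) D := by
    intro D hD
    have hD' := Finset.mem_filter.1 hD
    refine ⟨(hpf.1 D).1, ?_⟩
    rw [mul_pow, hσ2, one_mul]
    exact hpf.2 f D hf (hstp D hD'.1) hD'.2 (hssd D hD'.1) P _ R'
  rw [hsum] at h1 h2
  rw [hsum3] at h3
  have hA : T ^ n * V * (α - ρ) ≤ ∑ D ∈ s, G (fun v => em D v / T) *
      (σ * Z1 P (T ^ (n * θ)) f R' (bD f D) D) := by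
    have h5 : ∑ D ∈ s, G (fun v => em D v / T) * (σ * Z1 P (T ^ (n * θ)) f R' (bD f D) D) =
        σ * ∑ D ∈ s, G (fun v => em D v / T) * Z1 P (T ^ (n * θ)) f R' (bD f D) D := by
      rw [Finset.mul_sum]
      exact Finset.sum_congr rfl fun D _ => by ring
    rw [h5]
    set X := ∑ D ∈ s, G (fun v => em D v / T) * Z1 P (T ^ (n * θ)) f R' (bD f D) D with hX
    have h6 : |σ * X - T ^ n * V * α| ≤ ρ * V0 * T ^ n := by
      have h7 : σ * X - T ^ n * V * α = σ * (X - T ^ n * kf f * I * (dR R' * a0)) := by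
        rw [← hσ, hV]
        ring
      rw [h7, abs_mul, hσ1, one_mul]
      exact h1
    have h7 := (abs_le.1 h6).1
    have h8 : ρ * V0 * T ^ n ≤ ρ * V * T ^ n := by gcongr
    nlinarith
  have hB : ∑ D ∈ s, G (fun v => em D v / T) * S2 P (T ^ (n * θ)) f R' (bD f D) D ≤
      T ^ n * V * ((1 + ε / 2) * mt + ρ) := by
    have h6 := (abs_le.1 h2).2
    have h7 := (abs_le.1 hcrr).2
    set Y := ∑ D ∈ s, G (fun v => em D v / T) * S2 P (T ^ (n * θ)) f R' (bD f D) D with hY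
    set q := (∏ P ∈ R', (1 - 1 / np P)) ^ 3 * Pool.Agent.H89.NV.Sg k R' with hq
    have h8 : T ^ n * kf f * I * (dR R' * q * mt) = T ^ n * V * (q * mt) := by
      rw [hV]
      ring
    rw [h8] at h6
    have h9 : T ^ n * V * (q * mt) ≤ T ^ n * V * ((1 + ε / 2) * mt) := by
      refine mul_le_mul_of_nonneg_left ?_ (by positivity)
      exact mul_le_mul_of_nonneg_right (by linarith) hmt.le
    have h10 : ρ * V0 * T ^ n ≤ ρ * V * T ^ n := by gcongr
    nlinarith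
  have hC : (∑ D ∈ s \ t, G (fun v => em D v / T)) * (T ^ n * V * ((1 + ε / 2) * mt + ρ)) ≤
      (T ^ n * V * ρ) ^ 2 := by
    have hK : 0 < (1 + ε / 2) * mt + ρ := by positivity
    calc (∑ D ∈ s \ t, G (fun v => em D v / T)) * (T ^ n * V * ((1 + ε / 2) * mt + ρ)) ≤
        (ρ ^ 2 * V0 / ((1 + ε / 2) * mt + ρ) * T ^ n) *
          (T ^ n * V * ((1 + ε / 2) * mt + ρ)) :=
          mul_le_mul_of_nonneg_right h3 (by positivity)
      _ = (T ^ n) ^ 2 * V * ρ ^ 2 * V0 := by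
          field_simp
      _ ≤ (T ^ n) ^ 2 * V * ρ ^ 2 * V := by gcongr
      _ = (T ^ n * V * ρ) ^ 2 := by ring
  have hfin := hCSQ (𝓞 k) s t (fun D => G (fun v => em D v / T))
    (fun D => σ * Z1 P (T ^ (n * θ)) f R' (bD f D) D)
    (fun D => S2 P (T ^ (n * θ)) f R' (bD f D) D) pf (Finset.filter_subset _ _)
    (fun D _ => hG0 _) hM hMt (T ^ n * V * (α - ρ)) (T ^ n * V * ρ)
    (T ^ n * V * ((1 + ε / 2) * mt + ρ)) (by positivity)
    (mul_le_mul_of_nonneg_left (by linarith) (by positivity)) hA hB (by positivity) hC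
  rw [hsum2]
  refine le_trans ?_ hfin
  rw [le_div_iff₀ (by positivity)]
  have h5 : T ^ n * kf f * dR R' * I = T ^ n * V := by
    rw [hV]
    ring
  rw [h5]
  calc (19 / 27 - ε) * (T ^ n * V) * (T ^ n * V * ((1 + ε / 2) * mt + ρ)) =
      (T ^ n * V) ^ 2 * ((19 / 27 - ε) * ((1 + ε / 2) * mt + ρ)) := by ring
    _ ≤ (T ^ n * V) ^ 2 * (α - 2 * ρ) ^ 2 := mul_le_mul_of_nonneg_left hρ3 (by positivity)
    _ = (T ^ n * V * (α - ρ) - T ^ n * V * ρ) ^ 2 := by ring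

end Pool.Agent.H4.NV
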